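import Pool.Agent.W993.MC.Stm

set_option autoImplicit false

namespace Pool.Agent.W414.MC.Sum

open Pool.Agent.W993.MC

lemma hm_nonneg (m : ℕ) : 0 ≤ hm m := by
  unfold hm
  exact Finset.sum_nonneg (fun i _ => by positivity)

lemma hm_le (m : ℕ) : hm m ≤ 1 + Real.log m := by
  have h : hm m = ((harmonic m : ℚ) : ℝ) := by
    unfold hm harmonic
    push_cast
    refine Finset.sum_congr rfl (fun i _ => ?_)
    rw [one_div]
  rw [h]
  exact harmonic_le_one_add_log m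

theorem main : S_SUM := by
  intro n
  obtain ⟨e, he⟩ : ∃ e : ℝ, e = 1 / (2 * ((n : ℝ) + 1)) := ⟨_, rfl⟩
  have hn0 : (0 : ℝ) < (n : ℝ) + 1 := by positivity
  have hepos : 0 < e := by rw [he]; positivity
  have hen : e * n ≤ 1 / 2 := by
    rw [he, div_mul_eq_mul_div, div_le_div_iff₀ (by positivity) (by norm_num)]
    linarith
  have hs : Summable (fun l : ℕ => (1 + 1 / e) ^ n * (((l + 1 : ℕ) : ℝ) ^ (3 / 2 : ℝ))⁻¹) :=
    ((summable_nat_add_iff 1).2
      (Real.summable_nat_rpow_inv.2 (by norm_num : (1 : ℝ) < 3 / 2))).mul_left _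
  refine Summable.of_nonneg_of_le (fun l => ?_) (fun l => ?_) hs
  · exact div_nonneg (pow_nonneg (hm_nonneg _) _) (by positivity)
  · have hx1 : (1 : ℝ) ≤ ((l + 1 : ℕ) : ℝ) := by
      push_cast
      have : (0 : ℝ) ≤ (l : ℝ) := Nat.cast_nonneg l
      linarith
    have hx2 : ((l : ℝ) + 1) = ((l + 1 : ℕ) : ℝ) := by push_cast; ring
    rw [hx2]
    obtain ⟨x, hx⟩ : ∃ x : ℝ, x = ((l + 1 : ℕ) : ℝ) := ⟨_, rfl⟩
    have hb := hm_le (l + 1)
    rw [← hx] at hb hx1 ⊢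
    have hx0 : 0 < x := by linarith
    have h1 : (1 : ℝ) ≤ x ^ e := Real.one_le_rpow hx1 hepos.le
    have h2 : Real.log x ≤ x ^ e / e := Real.log_le_rpow_div hx0.le hepos
    have h3 : hm (l + 1) ≤ (1 + 1 / e) * x ^ e := by
      have : (1 + 1 / e) * x ^ e = x ^ e + x ^ e / e := by ring
      rw [this]
      linarith
    have h4 : hm (l + 1) ^ n ≤ (1 + 1 / e) ^ n * x ^ (1 / 2 : ℝ) := by
      calc hm (l + 1) ^ n ≤ ((1 + 1 / e) * x ^ e) ^ n := pow_le_pow_left₀ (hm_nonneg _) h3 n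
        _ = (1 + 1 / e) ^ n * x ^ (e * n) := by
            rw [mul_pow, Real.rpow_mul hx0.le, Real.rpow_natCast]
        _ ≤ (1 + 1 / e) ^ n * x ^ (1 / 2 : ℝ) := by
            refine mul_le_mul_of_nonneg_left ?_ (by positivity)
            exact Real.rpow_le_rpow_of_exponent_le hx1 hen
    have h5 : (x ^ (3 / 2 : ℝ))⁻¹ = x ^ (1 / 2 : ℝ) / x ^ 2 := by
      rw [← Real.rpow_neg hx0.le, ← Real.rpow_natCast x 2, ← Real.rpow_sub hx0]
      norm_num
    rw [h5, ← mul_div_assoc]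
    exact div_le_div_of_nonneg_right h4 (by positivity)

end Pool.Agent.W414.MC.Sum
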